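import Pool.Agent.Y202.QK.Ext

/-!
# Project QK, part GD: the measure of the good base data
-/

set_option autoImplicit false

namespace Pool.Agent.Y202.QK

open Finset Pool.Agent.W262.RK Pool.Agent.W307.RT Pool.Agent.W307.RS Pool.Agent.W307.SE
  Pool.Agent.W307.FK Pool.Agent.Y667.RP Pool.Agent.Y667.RZ Pool.Agent.Y678.RP
  Pool.Agent.Y202.RZ Pool.Agent.Y667.QK

theorem sqfT {T m : ℕ} (hT : Squarefree T) (hsq : Squarefree m) (h : Nat.Coprime T m) :
    Squarefree (T * m) := (Nat.squarefree_mul h).2 ⟨hT, hsq⟩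

theorem sym_hyp3 {c : ℝ} {r : ℕ} {Y : ℕ → ℕ} {s : Fin 3 → ℕ} {E : Finset ℕ} {f τ T : ℕ}
    (hT : AdT T) (hτT : τ ∣ T)
    (hsq : Squarefree (∏ j, s j)) (hodd : Odd (∏ j, s j)) (hcp : Nat.Coprime T (∏ j, s j))
    (hY : ∀ i < r, (T * ∏ j, s j) ^ 4 ≤ Y i)
    (hB : ∀ i < r, ∀ g ∈ SB c (Y i), ¬ g ∣ T * ∏ j, s j) :
    SymH c Y r (Vt f τ s E) := by
  refine sym_hyp_gen (sqfT hT.sqf hsq hcp) ((adT_odd hT).mul hodd) ?_ hY hB
  rintro w ⟨hw1, hw2, -, -, hw3, hw4, -⟩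
  refine ⟨hw1, hw2, fun q hq hqd => ?_, fun q hq hqd => ?_⟩
  · exact (hw3 q hq hqd).trans (Nat.mul_dvd_mul_right hτT _)
  · exact (hw4 q hq hqd).trans (Nat.mul_dvd_mul_left 2 (Nat.mul_dvd_mul_right hτT _))

/-- the good base data -/
def GB3 (c : ℝ) (R u : ℕ) (Y : ℕ → ℕ) (y f τ τ' T : ℕ) (s : Fin 3 → ℕ) (E : Finset ℕ) : Prop :=
  ((Vt f τ s E).ncard ≤ 2 ^ R ∧ (Vt f τ' s E).ncard ≤ 2 ^ R) ∧
    (∀ j, (s j : ℝ) ≤ (y : ℝ) ^ (u : ℝ)) ∧
    ∀ i < 2 * R, ∀ g ∈ SB c (Y i), ¬ g ∣ T * ∏ j, s j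

theorem twt_twt {τ m : ℕ} {E : Finset ℕ} (hE : E ⊆ m.primeFactors) :
    twt τ m (twt τ m E) = E := by
  ext p
  unfold twt
  simp only [mem_filter]
  constructor
  · rintro ⟨h1, h2⟩
    by_contra h3
    apply h2
    constructor
    · rintro ⟨-, h4⟩
      by_contra h5
      exact h4 ⟨fun h => (h3 h).elim, fun h => (h5 h).elim⟩
    · intro h4
      exact ⟨h1, fun h5 => h3 (h5.2 h4)⟩
  · intro h1
    refine ⟨hE h1, ?_⟩
    rintro h2
    by_cases h4 : jacobiSym τ p = -1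
    · exact (h2.2 h4).2 ⟨fun _ => h4, fun _ => h1⟩
    · exact h4 (h2.1 ⟨hE h1, fun h5 => h4 (h5.1 h1)⟩)

theorem twt_sub (τ m : ℕ) (E : Finset ℕ) : twt τ m E ⊆ m.primeFactors := Finset.filter_subset _ _

theorem sum_twt (τ m : ℕ) (g : Finset ℕ → ℝ) :
    ∑ E ∈ m.primeFactors.powerset, g (twt τ m E) = ∑ E ∈ m.primeFactors.powerset, g E := by
  refine Finset.sum_nbij' (fun E => twt τ m E) (fun E => twt τ m E) ?_ ?_ ?_ ?_ ?_
  · intro E _
    exact mem_powerset.2 (twt_sub τ m E)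
  · intro E _
    exact mem_powerset.2 (twt_sub τ m E)
  · intro E hE
    exact twt_twt (mem_powerset.1 hE)
  · intro E hE
    exact twt_twt (mem_powerset.1 hE)
  · intro E _
    rfl

open Classical in
theorem base_pt (hV : Pool.Agent.Y667.QK.St_VN) {y : ℕ} {R u : ℕ} {Y : ℕ → ℕ} {c : ℝ}
    {f τ τ' T K : ℕ} (hτ : AdT τ) (hτ' : AdT τ') (hT : τ ∣ T) (hT' : τ' ∣ T)
    (hKτ : 4 ^ (τ.primeFactors.card + 1) ≤ K) (hKτ' : 4 ^ (τ'.primeFactors.card + 1) ≤ K)
    {s : Fin 3 → ℕ}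
    (hsq : Squarefree (∏ j, s j)) (hodd : Odd (∏ j, s j)) (hcp : Nat.Coprime T (∏ j, s j)) :
    ∏ j, 1 / (s j : ℝ) ≤
      mu s * (((∏ j, s j).primeFactors.powerset.filter
        (fun E => GB3 c R u Y y f τ τ' T s E)).card : ℝ) +
      2 * K / 2 ^ R * (mu s * ∑ E ∈ (∏ j, s j).primeFactors.powerset,
        (NL (∏ j, s j) (LF s E) : ℝ)) +
      (if ∃ j, (y : ℝ) ^ (u : ℝ) < s j then ∏ j, 1 / (s j : ℝ) else 0) +
      ∑ i ∈ range (2 * R), ∑ g ∈ SB c (Y i),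
        (if g ∣ T * ∏ j, s j then ∏ j, 1 / (s j : ℝ) else 0) := by
  have hW : 0 ≤ ∏ j, 1 / (s j : ℝ) := by positivity
  have hmu := mu_nonneg s
  have t1 : 0 ≤ mu s * (((∏ j, s j).primeFactors.powerset.filter
      (fun E => GB3 c R u Y y f τ τ' T s E)).card : ℝ) := by positivity
  have t2 : 0 ≤ 2 * K / 2 ^ R * (mu s * ∑ E ∈ (∏ j, s j).primeFactors.powerset,
        (NL (∏ j, s j) (LF s E) : ℝ)) := by positivity
  have t3 : 0 ≤ (if ∃ j, (y : ℝ) ^ (u : ℝ) < s j then ∏ j, 1 / (s j : ℝ) else 0) := by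
    split_ifs
    · exact hW
    · exact le_rfl
  have t4' : ∀ i ∈ range (2 * R), ∀ g ∈ SB c (Y i),
      0 ≤ (if g ∣ T * ∏ j, s j then ∏ j, 1 / (s j : ℝ) else 0) := by
    intro i _ g _
    split_ifs
    · exact hW
    · exact le_rfl
  have t4 : 0 ≤ ∑ i ∈ range (2 * R), ∑ g ∈ SB c (Y i),
      (if g ∣ T * ∏ j, s j then ∏ j, 1 / (s j : ℝ) else 0) :=
    Finset.sum_nonneg fun i hi => Finset.sum_nonneg fun g hg => t4' i hi g hg
  by_cases hb : ∃ j, (y : ℝ) ^ (u : ℝ) < s j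
  · rw [if_pos hb] at t3 ⊢
    linarith
  by_cases hf : ∃ i < 2 * R, ∃ g ∈ SB c (Y i), g ∣ T * ∏ j, s j
  · obtain ⟨i, hi, g, hg, hgd⟩ := hf
    have h1 : ∏ j, 1 / (s j : ℝ) ≤ ∑ i ∈ range (2 * R), ∑ g ∈ SB c (Y i),
        (if g ∣ T * ∏ j, s j then ∏ j, 1 / (s j : ℝ) else 0) := by
      calc ∏ j, 1 / (s j : ℝ) = if g ∣ T * ∏ j, s j then ∏ j, 1 / (s j : ℝ) else 0 := by
            rw [if_pos hgd]
        _ ≤ ∑ g ∈ SB c (Y i), (if g ∣ T * ∏ j, s j then ∏ j, 1 / (s j : ℝ) else 0) :=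
            Finset.single_le_sum (f := fun g => if g ∣ T * ∏ j, s j then
                ∏ j, 1 / (s j : ℝ) else 0)
              (fun g hg => t4' i (mem_range.2 hi) g hg) hg
        _ ≤ _ := Finset.single_le_sum (f := fun i => ∑ g ∈ SB c (Y i),
              (if g ∣ T * ∏ j, s j then ∏ j, 1 / (s j : ℝ) else 0))
              (fun i hi => Finset.sum_nonneg fun g hg => t4' i hi g hg) (mem_range.2 hi)
    linarith
  -- the main case
  push Not at hb hf
  set PW := (∏ j, s j).primeFactors.powerset with hPW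
  have hcard : (PW.card : ℝ) = 2 ^ (∏ j, s j).primeFactors.card := by
    rw [hPW, Finset.card_powerset]
    push_cast
    rfl
  have h1 : (PW.card : ℝ) ≤ ((PW.filter (fun E => GB3 c R u Y y f τ τ' T s E)).card : ℝ) +
      ((PW.filter (fun E => ¬ GB3 c R u Y y f τ τ' T s E)).card : ℝ) := by
    rw [← Nat.cast_add, Finset.card_filter_add_card_filter_not]
  have h2 : 2 ^ R * ((PW.filter (fun E => ¬ GB3 c R u Y y f τ τ' T s E)).card : ℝ) ≤
      2 * K * ∑ E ∈ PW, (NL (∏ j, s j) (LF s E) : ℝ) := by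
    calc 2 ^ R * ((PW.filter (fun E => ¬ GB3 c R u Y y f τ τ' T s E)).card : ℝ)
        = ∑ E ∈ PW.filter (fun E => ¬ GB3 c R u Y y f τ τ' T s E), (2 : ℝ) ^ R := by
          rw [Finset.sum_const, nsmul_eq_mul, mul_comm]
      _ ≤ ∑ E ∈ PW.filter (fun E => ¬ GB3 c R u Y y f τ τ' T s E),
            ((K : ℝ) * (NL (∏ j, s j) (LF s (twt τ (∏ j, s j) E)) : ℝ) +
              K * (NL (∏ j, s j) (LF s (twt τ' (∏ j, s j) E)) : ℝ)) := by
          refine Finset.sum_le_sum fun E hE => ?_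
          have hE' := (mem_filter.1 hE).2
          have h3 : 2 ^ R < (Vt f τ s E).ncard ∨ 2 ^ R < (Vt f τ' s E).ncard := by
            by_contra hcon
            push Not at hcon
            exact hE' ⟨hcon, fun j => hb j, fun i hi g hg' => hf i hi g hg'⟩
          have h4 := (hV f τ s E hτ hsq hodd (hcp.coprime_dvd_left hT)).2
          have h4' := (hV f τ' s E hτ' hsq hodd (hcp.coprime_dvd_left hT')).2
          have k4 := Nat.mul_le_mul_right (NL (∏ j, s j) (LF s (twt τ (∏ j, s j) E))) hKτ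
          have k4' := Nat.mul_le_mul_right (NL (∏ j, s j) (LF s (twt τ' (∏ j, s j) E))) hKτ'
          have h5 : 2 ^ R ≤ K * NL (∏ j, s j) (LF s (twt τ (∏ j, s j) E)) +
              K * NL (∏ j, s j) (LF s (twt τ' (∏ j, s j) E)) := by
            rcases h3 with h3 | h3
            · exact (h3.le.trans (h4.trans k4)).trans (Nat.le_add_right _ _)
            · exact (h3.le.trans (h4'.trans k4')).trans (Nat.le_add_left _ _)
          exact_mod_cast h5
      _ ≤ ∑ E ∈ PW, ((K : ℝ) * (NL (∏ j, s j) (LF s (twt τ (∏ j, s j) E)) : ℝ) +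
              K * (NL (∏ j, s j) (LF s (twt τ' (∏ j, s j) E)) : ℝ)) := by
          refine Finset.sum_le_sum_of_subset_of_nonneg (Finset.filter_subset _ _)
            fun _ _ _ => by positivity
      _ = _ := by
          rw [Finset.sum_add_distrib, ← Finset.mul_sum, ← Finset.mul_sum,
            sum_twt τ (∏ j, s j) (fun E => (NL (∏ j, s j) (LF s E) : ℝ)),
            sum_twt τ' (∏ j, s j) (fun E => (NL (∏ j, s j) (LF s E) : ℝ))]
          ring
  have h3 : ((PW.filter (fun E => ¬ GB3 c R u Y y f τ τ' T s E)).card : ℝ) ≤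
      2 * K / 2 ^ R * ∑ E ∈ PW, (NL (∏ j, s j) (LF s E) : ℝ) := by
    have h2R : (0 : ℝ) < 2 ^ R := by positivity
    rw [div_mul_eq_mul_div, le_div_iff₀ h2R]
    linarith
  have h4 : ∏ j, 1 / (s j : ℝ) ≤
      mu s * ((PW.filter (fun E => GB3 c R u Y y f τ τ' T s E)).card : ℝ) +
      2 * K / 2 ^ R * (mu s * ∑ E ∈ PW, (NL (∏ j, s j) (LF s E) : ℝ)) := by
    rw [← mu_pow, ← hcard]
    calc mu s * (PW.card : ℝ) ≤
          mu s * (((PW.filter (fun E => GB3 c R u Y y f τ τ' T s E)).card : ℝ) +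
          2 * K / 2 ^ R * ∑ E ∈ PW, (NL (∏ j, s j) (LF s E) : ℝ)) := by
          refine mul_le_mul_of_nonneg_left ?_ hmu
          linarith
      _ = _ := by ring
  linarith

theorem gT {T g m : ℕ} (hT0 : T ≠ 0) (h : g ∣ T * m) : g / Nat.gcd g T ∣ m := by
  have hd : 0 < Nat.gcd g T := Nat.gcd_pos_of_pos_right _ (Nat.pos_of_ne_zero hT0)
  have hcop : Nat.Coprime (g / Nat.gcd g T) (T / Nat.gcd g T) := Nat.coprime_div_gcd_div_gcd hd
  refine hcop.dvd_of_dvd_mul_left ?_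
  have h1 : Nat.gcd g T * (g / Nat.gcd g T) = g := Nat.mul_div_cancel' (Nat.gcd_dvd_left g T)
  have h2 : Nat.gcd g T * (T / Nat.gcd g T) = T := Nat.mul_div_cancel' (Nat.gcd_dvd_right g T)
  refine Nat.dvd_of_mul_dvd_mul_left hd ?_
  rw [← mul_assoc, h1, h2]
  exact h

open Classical in
theorem h5_T {z y T : ℕ} (hT0 : T ≠ 0) {C L : ℝ} (hC : 0 ≤ C) (hL : 0 ≤ L)
    (h5 : ∀ f : ℕ, 1 ≤ f → ∑ s ∈ (Tup (Fin 3) z y).filter (fun s => f ∣ ∏ j, s j),
      ∏ j, 1 / (s j : ℝ) ≤ C * ((3 : ℝ) ^ f.primeFactors.card / f) * L) {g : ℕ}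
    (hg : g ≠ 0) :
    ∑ s ∈ (Tup (Fin 3) z y).filter (fun s => g ∣ T * ∏ j, s j),
      ∏ j, 1 / (s j : ℝ) ≤ T * C * ((3 : ℝ) ^ g.primeFactors.card / g) * L := by
  have hd : 0 < Nat.gcd g T := Nat.gcd_pos_of_pos_right _ (Nat.pos_of_ne_zero hT0)
  have hdT : Nat.gcd g T ≤ T := Nat.gcd_le_right g (Nat.pos_of_ne_zero hT0)
  have hdg : Nat.gcd g T ∣ g := Nat.gcd_dvd_left g T
  have hg1 : 1 ≤ g / Nat.gcd g T :=
    Nat.div_pos (Nat.le_of_dvd (Nat.pos_of_ne_zero hg) hdg) hd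
  calc ∑ s ∈ (Tup (Fin 3) z y).filter (fun s => g ∣ T * ∏ j, s j), ∏ j, 1 / (s j : ℝ)
      ≤ ∑ s ∈ (Tup (Fin 3) z y).filter (fun s => g / Nat.gcd g T ∣ ∏ j, s j),
          ∏ j, 1 / (s j : ℝ) := by
        refine Finset.sum_le_sum_of_subset_of_nonneg ?_ fun _ _ _ => by positivity
        intro s hs
        rw [mem_filter] at hs ⊢
        exact ⟨hs.1, gT hT0 hs.2⟩
    _ ≤ C * ((3 : ℝ) ^ (g / Nat.gcd g T).primeFactors.card / ((g / Nat.gcd g T : ℕ) : ℝ)) * L :=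
        h5 _ hg1
    _ ≤ C * (T * ((3 : ℝ) ^ g.primeFactors.card / g)) * L := by
        refine mul_le_mul_of_nonneg_right ?_ hL
        refine mul_le_mul_of_nonneg_left ?_ hC
        have e1 : (g / Nat.gcd g T).primeFactors.card ≤ g.primeFactors.card :=
          Finset.card_le_card (Nat.primeFactors_mono (Nat.div_dvd_of_dvd hdg) hg)
        have e2 : (3 : ℝ) ^ (g / Nat.gcd g T).primeFactors.card ≤ 3 ^ g.primeFactors.card :=
          pow_le_pow_right₀ (by norm_num) e1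
        have hgR : (0 : ℝ) < g := by exact_mod_cast Nat.pos_of_ne_zero hg
        have hdR : (0 : ℝ) < (Nat.gcd g T : ℕ) := by exact_mod_cast hd
        have hdTR : ((Nat.gcd g T : ℕ) : ℝ) ≤ T := by exact_mod_cast hdT
        have e3 : ((g / Nat.gcd g T : ℕ) : ℝ) = (g : ℝ) / (Nat.gcd g T : ℕ) :=
          Nat.cast_div hdg hdR.ne'
        rw [e3]
        calc (3 : ℝ) ^ (g / Nat.gcd g T).primeFactors.card / ((g : ℝ) / (Nat.gcd g T : ℕ))
            = (3 : ℝ) ^ (g / Nat.gcd g T).primeFactors.card * ((Nat.gcd g T : ℕ) : ℝ) / g := by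
              field_simp
          _ ≤ (3 : ℝ) ^ g.primeFactors.card * T / g := by
              refine div_le_div_of_nonneg_right ?_ hgR.le
              exact mul_le_mul e2 hdTR hdR.le (by positivity)
          _ = _ := by ring
    _ = _ := by ring

open Classical in
/-- the mass of the data not prime to `D` is small -/
theorem mass {z y D : ℕ} {c1 C L ε : ℝ} (hC : 0 ≤ C) (hL : 0 ≤ L)
    (h1 : c1 * L ≤ ∑ s ∈ Tup (Fin 3) z y, ∏ j, 1 / (s j : ℝ))
    (h5 : ∀ f : ℕ, 1 ≤ f → ∑ s ∈ (Tup (Fin 3) z y).filter (fun s => f ∣ ∏ j, s j),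
      ∏ j, 1 / (s j : ℝ) ≤ C * ((3 : ℝ) ^ f.primeFactors.card / f) * L)
    (hD0 : D ≠ 0) (hε : ∑ q ∈ D.primeFactors, 1 / (q : ℝ) ≤ ε) (hεC : 3 * C * ε ≤ c1 / 8) :
    7 / 8 * c1 * L ≤ ∑ s ∈ (Tup (Fin 3) z y).filter (fun s => Nat.Coprime D (∏ j, s j)),
      ∏ j, 1 / (s j : ℝ) := by
  have hpt : ∀ s ∈ Tup (Fin 3) z y, ∏ j, 1 / (s j : ℝ) ≤
      (if Nat.Coprime D (∏ j, s j) then ∏ j, 1 / (s j : ℝ) else 0) +
      ∑ q ∈ D.primeFactors, (if q ∣ ∏ j, s j then ∏ j, 1 / (s j : ℝ) else 0) := by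
    intro s hs
    have hW : 0 ≤ ∏ j, 1 / (s j : ℝ) := by positivity
    have h0 : ∀ q ∈ D.primeFactors, 0 ≤ (if q ∣ ∏ j, s j then ∏ j, 1 / (s j : ℝ) else 0) := by
      intro q _
      split_ifs
      · exact hW
      · exact le_rfl
    by_cases hcp : Nat.Coprime D (∏ j, s j)
    · rw [if_pos hcp]
      have := Finset.sum_nonneg h0
      linarith
    · rw [if_neg hcp, zero_add]
      obtain ⟨q, hq, hqD, hqs⟩ := Nat.Prime.not_coprime_iff_dvd.1 hcp
      calc ∏ j, 1 / (s j : ℝ) = if q ∣ ∏ j, s j then ∏ j, 1 / (s j : ℝ) else 0 := by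
            rw [if_pos hqs]
        _ ≤ _ := Finset.single_le_sum (f := fun q => if q ∣ ∏ j, s j then
              ∏ j, 1 / (s j : ℝ) else 0) h0 (Nat.mem_primeFactors.2 ⟨hq, hqD, hD0⟩)
  have hsum := Finset.sum_le_sum hpt
  rw [Finset.sum_add_distrib, ← Finset.sum_filter, Finset.sum_comm] at hsum
  have h2 : ∑ q ∈ D.primeFactors, ∑ s ∈ Tup (Fin 3) z y,
      (if q ∣ ∏ j, s j then ∏ j, 1 / (s j : ℝ) else 0) ≤ c1 / 8 * L := by
    calc _ ≤ ∑ q ∈ D.primeFactors, 3 * C * L * (1 / (q : ℝ)) := by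
          refine Finset.sum_le_sum fun q hq => ?_
          rw [← Finset.sum_filter]
          have hqp := (Nat.mem_primeFactors.1 hq).1
          refine (h5 q hqp.one_lt.le).trans (le_of_eq ?_)
          rw [hqp.primeFactors, Finset.card_singleton, pow_one]
          ring
      _ = 3 * C * (∑ q ∈ D.primeFactors, 1 / (q : ℝ)) * L := by
          rw [← Finset.mul_sum]
          ring
      _ ≤ 3 * C * ε * L := by
          refine mul_le_mul_of_nonneg_right ?_ hL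
          exact mul_le_mul_of_nonneg_left hε (by positivity)
      _ ≤ c1 / 8 * L := mul_le_mul_of_nonneg_right hεC hL
  have e6 : c1 * L = 7 / 8 * c1 * L + c1 / 8 * L := by ring
  linarith

open Classical in
theorem base (hV : Pool.Agent.Y667.QK.St_VN) {z y : ℕ} {f D τ τ' K : ℕ} (hz2 : 2 ≤ z)
    (hf : f.Prime) (hfz : f ≤ z) (hAd : AdT (f * D)) (hT : τ ∣ f * D) (hT' : τ' ∣ f * D)
    (hKτ : 4 ^ (τ.primeFactors.card + 1) ≤ K) (hKτ' : 4 ^ (τ'.primeFactors.card + 1) ≤ K)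
    {c1 C η L c ε : ℝ} {R u : ℕ} {Y : ℕ → ℕ}
    (hC : 0 ≤ C) (hL : 0 ≤ L)
    (h1 : c1 * L ≤ ∑ s ∈ Tup (Fin 3) z y, ∏ j, 1 / (s j : ℝ))
    (h3 : ∑ s ∈ (Tup (Fin 3) z y).filter (fun s => ∃ j, (y : ℝ) ^ (u : ℝ) < s j),
      ∏ j, 1 / (s j : ℝ) ≤ c1 / 8 * L)
    (h4 : ∑ s ∈ Tup (Fin 3) z y, mu s * ∑ E ∈ (∏ j, s j).primeFactors.powerset,
      (NL (∏ j, s j) (LF s E) : ℝ) ≤ C * L)
    (h5 : ∀ f : ℕ, 1 ≤ f → ∑ s ∈ (Tup (Fin 3) z y).filter (fun s => f ∣ ∏ j, s j),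
      ∏ j, 1 / (s j : ℝ) ≤ C * ((3 : ℝ) ^ f.primeFactors.card / f) * L)
    (hε : ∑ q ∈ D.primeFactors, 1 / (q : ℝ) ≤ ε) (hεC : 3 * C * ε ≤ c1 / 8)
    (hR : 2 * K / 2 ^ R * C ≤ c1 / 8)
    (hη : ∀ i < 2 * R, ∑ g ∈ SB c (Y i), (3 : ℝ) ^ g.primeFactors.card / g ≤ η)
    (hη2 : (2 * R : ℕ) * ((f * D : ℕ) * C * η) ≤ c1 / 4) :
    3 / 8 * c1 * L ≤ ∑ s ∈ (Tup (Fin 3) z y).filter (fun s => Nat.Coprime D (∏ j, s j)), mu s *
      (((∏ j, s j).primeFactors.powerset.filter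
        (fun E => GB3 c R u Y y f τ τ' (f * D) s E)).card : ℝ) := by
  have hD0 : D ≠ 0 := by
    rintro rfl
    exact hAd.sqf.ne_zero (by simp)
  have hm := mass hC hL h1 h5 hD0 hε hεC
  have hodd : ∀ s ∈ Tup (Fin 3) z y, Odd (∏ j, s j) := by
    intro s hs
    rw [mem_Tup] at hs
    rw [← Nat.not_even_iff_odd, even_iff_two_dvd]
    intro h2
    have := (hs.2 2 Nat.prime_two h2).1
    omega
  have hcp : ∀ s ∈ (Tup (Fin 3) z y).filter (fun s => Nat.Coprime D (∏ j, s j)),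
      Nat.Coprime (f * D) (∏ j, s j) := by
    intro s hs
    rw [mem_filter] at hs
    refine Nat.Coprime.mul_left ((Nat.Prime.coprime_iff_not_dvd hf).2 fun h => ?_) hs.2
    have := ((mem_Tup.1 hs.1).2 f hf h).1
    omega
  set TC := (Tup (Fin 3) z y).filter (fun s => Nat.Coprime D (∏ j, s j)) with hTC
  have hsub : TC ⊆ Tup (Fin 3) z y := Finset.filter_subset _ _
  have hsum := Finset.sum_le_sum fun s hs =>
    base_pt hV (y := y) (R := R) (u := u) (Y := Y) (c := c) (f := f) (adT_of_dvd hAd hT)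
      (adT_of_dvd hAd hT') hT hT' hKτ hKτ' ((mem_Tup.1 (hsub hs)).1) (hodd s (hsub hs)) (hcp s hs)
  rw [Finset.sum_add_distrib, Finset.sum_add_distrib, Finset.sum_add_distrib,
    ← Finset.mul_sum, Finset.sum_comm (s := TC) (t := range (2 * R))] at hsum
  have e3 : ∑ s ∈ TC, (if ∃ j, (y : ℝ) ^ (u : ℝ) < s j then ∏ j, 1 / (s j : ℝ) else 0) ≤
      c1 / 8 * L := by
    refine le_trans (Finset.sum_le_sum_of_subset_of_nonneg hsub fun s _ _ => ?_)
      (le_of_eq_of_le (Finset.sum_filter _ _).symm h3)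
    split_ifs
    · positivity
    · exact le_rfl
  have e4 : ∑ i ∈ range (2 * R), ∑ s ∈ TC, ∑ g ∈ SB c (Y i),
      (if g ∣ (f * D) * ∏ j, s j then ∏ j, 1 / (s j : ℝ) else 0) ≤
        (2 * R : ℕ) * ((f * D : ℕ) * C * η) * L := by
    calc _ ≤ ∑ i ∈ range (2 * R), ((f * D : ℕ) : ℝ) * C * η * L := by
          refine Finset.sum_le_sum fun i hi => ?_
          rw [Finset.sum_comm]
          calc _ ≤ ∑ g ∈ SB c (Y i),
                ((f * D : ℕ) : ℝ) * C * ((3 : ℝ) ^ g.primeFactors.card / g) * L := by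
                refine Finset.sum_le_sum fun g hg => ?_
                refine le_trans (Finset.sum_le_sum_of_subset_of_nonneg hsub fun s _ _ => ?_)
                  (le_of_eq_of_le (Finset.sum_filter _ _).symm
                    (h5_T hAd.sqf.ne_zero hC hL h5 (SB_prop hg).2.1.ne_zero))
                split_ifs
                · positivity
                · exact le_rfl
            _ = ((f * D : ℕ) : ℝ) * C *
                (∑ g ∈ SB c (Y i), (3 : ℝ) ^ g.primeFactors.card / g) * L := by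
                rw [Finset.mul_sum, Finset.sum_mul]
            _ ≤ ((f * D : ℕ) : ℝ) * C * η * L := by
                refine mul_le_mul_of_nonneg_right ?_ hL
                exact mul_le_mul_of_nonneg_left (hη i (mem_range.1 hi)) (by positivity)
      _ = _ := by
          rw [Finset.sum_const, card_range, nsmul_eq_mul]
          ring
  have e2 : 2 * K / 2 ^ R * ∑ s ∈ TC, mu s * ∑ E ∈ (∏ j, s j).primeFactors.powerset,
      (NL (∏ j, s j) (LF s E) : ℝ) ≤ c1 / 8 * L := by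
    calc _ ≤ 2 * K / 2 ^ R * (C * L) := by
          refine mul_le_mul_of_nonneg_left (le_trans ?_ h4) (by positivity)
          refine Finset.sum_le_sum_of_subset_of_nonneg hsub fun s _ _ => ?_
          have := mu_nonneg s
          positivity
      _ = (2 * K / 2 ^ R * C) * L := by ring
      _ ≤ _ := mul_le_mul_of_nonneg_right hR hL
  have e5 : (2 * R : ℕ) * ((f * D : ℕ) * C * η) * L ≤ c1 / 4 * L :=
    mul_le_mul_of_nonneg_right hη2 hL
  have e6 : 7 / 8 * c1 * L = 3 / 8 * c1 * L + c1 / 8 * L + c1 / 8 * L + c1 / 4 * L := by ring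
  linarith

end Pool.Agent.Y202.QK
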