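import Pool.Agent.Y202.RZ.Glue
import Pool.Agent.Y667.QK.Stm

/-!
# Project QK, part GD: extension of the data by killing primes
-/

set_option autoImplicit false

namespace Pool.Agent.Y202.QK

open Finset Pool.Agent.W262.RK Pool.Agent.W307.RT Pool.Agent.W307.RS Pool.Agent.W307.SE
  Pool.Agent.W307.FK Pool.Agent.Y667.RP Pool.Agent.Y667.RZ Pool.Agent.Y678.RP
  Pool.Agent.Y202.RZ Pool.Agent.Y667.QK

theorem one_mem_Vt (f τ : ℕ) (s : Fin 3 → ℕ) (E : Finset ℕ) :
    ((1 : ℤ), (1 : ℤ)) ∈ Vt f τ s E := by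
  have hp1 : ∀ q : ℕ, q.Prime → ¬ ((q : ℤ) ∣ 1) := by
    intro q hq h
    have : q ∣ 1 := by exact_mod_cast h
    exact hq.one_lt.ne' (Nat.dvd_one.1 this)
  refine ⟨squarefree_one, squarefree_one, one_pos, by norm_num, fun q hq h => (hp1 q hq h).elim,
    fun q hq h => (hp1 q hq h).elim, ?_⟩
  intro p hp
  have hp' := (Nat.mem_primeFactors.1 hp).1
  have h1 : dv p 1 = false := by
    unfold dv
    exact decide_eq_false (hp1 p hp')
  have h2 : sgn p 1 = false := by
    unfold sgn sg0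
    simp
  show Lt f τ s E p (dv p 1) (dv p 1) (sgn p 1) (sgn p 1)
  rw [h1, h2]
  unfold Lt
  split_ifs with h17
  · exact ⟨rfl, by simp⟩
  · intro j hj
    show LR j _ false false false false
    unfold LR
    fin_cases j <;> simp

theorem adT_of_dvd {T τ : ℕ} (hT : AdT T) (h : τ ∣ T) : AdT τ := by
  have hs : τ.primeFactors ⊆ T.primeFactors := Nat.primeFactors_mono h hT.sqf.ne_zero
  exact ⟨hT.sqf.squarefree_of_dvd h, fun q hq => hT.m8 q (hs hq),
    fun q hq q' hq' hne => hT.res q (hs hq) q' (hs hq') hne⟩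

theorem adT_odd {T : ℕ} (hT : AdT T) : Odd T := by
  rw [← Nat.not_even_iff_odd, even_iff_two_dvd]
  intro h2
  have := hT.m8 2 (Nat.mem_primeFactors.2 ⟨Nat.prime_two, h2, hT.sqf.ne_zero⟩)
  omega

/-- the property of the extensions -/
def ExtP3 (f τ τ' : ℕ) (Y : ℕ → ℕ) (r : ℕ) (s : Fin 3 → ℕ) (E : Finset ℕ)
    (t : (Fin 3 → ℕ) × Finset ℕ) : Prop :=
  (Vt f τ t.1 t.2 = {(1, 1)} ∧ Vt f τ' t.1 t.2 = {(1, 1)}) ∧ Squarefree (∏ j, t.1 j) ∧
    Odd (∏ j, t.1 j) ∧
    t.2 ⊆ (∏ j, t.1 j).primeFactors ∧ (∀ j, s j ∣ t.1 j) ∧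
    (∀ p ∈ (∏ j, t.1 j).primeFactors, p ∣ ∏ j, s j ∨ ∃ i < r, p ∈ II Y i) ∧
    t.2 ∩ (∏ j, s j).primeFactors = E ∧ ∏ j, t.1 j ≤ (∏ j, s j) * ∏ i ∈ range r, Y i ^ 2

theorem step1 (hV : Pool.Agent.Y667.QK.St_VN) (hK : Pool.Agent.Y667.QK.St_KILL)
    (hNG : Pool.Agent.Y667.QK.St_NG) {f τ τ' : ℕ} (hτ : AdT τ) (hτ' : AdT τ')
    {c : ℝ} {Y : ℕ → ℕ} {r : ℕ} {s : Fin 3 → ℕ} {E : Finset ℕ} (hsq : Squarefree (∏ j, s j))
    (hodd : Odd (∏ j, s j)) (hcp : Nat.Coprime τ (∏ j, s j)) (hcp' : Nat.Coprime τ' (∏ j, s j))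
    (hE : E ⊆ (∏ j, s j).primeFactors)
    (h0 : Vt f τ s E ≠ {(1, 1)}) (hS : SymH c Y (r + 1) (Vt f τ s E)) :
    ∃ (j : Fin 3) (D : ℤ),
      (c ≤ ∑ p ∈ (Ioc (Y r) (Y r ^ 2)).filter (fun p : ℕ => p.Prime ∧ jacobiSym D p = -1),
        (1 : ℝ) / p) ∧
      ∀ p : ℕ, p.Prime → p ≠ 2 → ¬ p ∣ τ → ¬ p ∣ τ' → ¬ p ∣ ∏ j, s j → jacobiSym D p = -1 →
        ∃ E' : Finset ℕ, (E' = E ∨ E' = insert p E) ∧
          Vt f τ (Function.update s j (s j * p)) E' ⊆ Vt f τ s E ∧
          Vt f τ' (Function.update s j (s j * p)) E' ⊆ Vt f τ' s E ∧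
          2 * ((Vt f τ (Function.update s j (s j * p)) E').ncard *
            (Vt f τ' (Function.update s j (s j * p)) E').ncard) ≤
            (Vt f τ s E).ncard * (Vt f τ' s E).ncard := by
  have hEE : ∀ p : ℕ, ¬ p ∣ ∏ j, s j → ∀ E' : Finset ℕ, (E' = E ∨ E' = insert p E) →
      E' ∩ (∏ j, s j).primeFactors = E ∩ (∏ j, s j).primeFactors := by
    rintro p hp E' (rfl | rfl)
    · rfl
    · rw [Finset.insert_inter_of_notMem]
      exact fun h => hp (Nat.dvd_of_mem_primeFactors h)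
  have hf1 := (hV f τ' s E hτ' hsq hodd hcp').1
  obtain ⟨w, hw, hw1⟩ := exists_ne (one_mem_Vt f τ s E) h0
  obtain ⟨j, D, hD, hD1, hphi⟩ := exists_sym hw1
  refine ⟨j, D, hS w hw D hD hD1 r (Nat.lt_succ_self r), ?_⟩
  intro p hp hp2 hpτ hpτ' hps hjac
  obtain ⟨E', hE', hsub⟩ : ∃ E' : Finset ℕ, (E' = E ∨ E' = insert p E) ∧
      Vt f τ' (Function.update s j (s j * p)) E' ⊆ Vt f τ' s E := by
    rcases (hNG f τ' s E p j hτ' hsq hodd hcp' hE hp hp2 hpτ' hps).1 with h | h
    · exact ⟨E, Or.inl rfl, h⟩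
    · exact ⟨insert p E, Or.inr rfl, h⟩
  obtain ⟨k1, k2⟩ := hK f τ s E E' w p j hτ hsq hodd hcp hw hp hp2 hpτ hps (hEE p hps E' hE')
    (hphi p hp hjac)
  refine ⟨E', hE', k1, hsub, ?_⟩
  have h3 := Set.ncard_le_ncard hsub hf1
  calc _ = (2 * (Vt f τ (Function.update s j (s j * p)) E').ncard) *
        (Vt f τ' (Function.update s j (s j * p)) E').ncard := by ring
    _ ≤ _ := Nat.mul_le_mul k2 h3

/-- the step: in all cases there are a class `j` and a symbol `D` such that for every prime `p` with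
`(D / p) = -1` there is a sign with the product of the orders at least halved. -/
theorem step (hV : Pool.Agent.Y667.QK.St_VN) (hK : Pool.Agent.Y667.QK.St_KILL)
    (hNG : Pool.Agent.Y667.QK.St_NG) {f τ τ' : ℕ} (hτ : AdT τ) (hτ' : AdT τ')
    {c : ℝ} {Y : ℕ → ℕ} {r : ℕ} {s : Fin 3 → ℕ} {E : Finset ℕ} (hsq : Squarefree (∏ j, s j))
    (hodd : Odd (∏ j, s j)) (hcp : Nat.Coprime τ (∏ j, s j)) (hcp' : Nat.Coprime τ' (∏ j, s j))
    (hE : E ⊆ (∏ j, s j).primeFactors)
    (hne : ¬ (Vt f τ s E = {(1, 1)} ∧ Vt f τ' s E = {(1, 1)}))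
    (hS : SymH c Y (r + 1) (Vt f τ s E)) (hS' : SymH c Y (r + 1) (Vt f τ' s E)) :
    ∃ (j : Fin 3) (D : ℤ),
      (c ≤ ∑ p ∈ (Ioc (Y r) (Y r ^ 2)).filter (fun p : ℕ => p.Prime ∧ jacobiSym D p = -1),
        (1 : ℝ) / p) ∧
      ∀ p : ℕ, p.Prime → p ≠ 2 → ¬ p ∣ τ → ¬ p ∣ τ' → ¬ p ∣ ∏ j, s j → jacobiSym D p = -1 →
        ∃ E' : Finset ℕ, (E' = E ∨ E' = insert p E) ∧
          Vt f τ (Function.update s j (s j * p)) E' ⊆ Vt f τ s E ∧
          Vt f τ' (Function.update s j (s j * p)) E' ⊆ Vt f τ' s E ∧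
          2 * ((Vt f τ (Function.update s j (s j * p)) E').ncard *
            (Vt f τ' (Function.update s j (s j * p)) E').ncard) ≤
            (Vt f τ s E).ncard * (Vt f τ' s E).ncard := by
  by_cases h0 : Vt f τ s E = {(1, 1)}
  · have h1 : Vt f τ' s E ≠ {(1, 1)} := fun h => hne ⟨h0, h⟩
    obtain ⟨j, D, h2, h3⟩ := step1 hV hK hNG hτ' hτ hsq hodd hcp' hcp hE h1 hS'
    refine ⟨j, D, h2, fun p hp hp2 hpτ hpτ' hps hjac => ?_⟩
    obtain ⟨E', e1, e2, e3, e4⟩ := h3 p hp hp2 hpτ' hpτ hps hjac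
    refine ⟨E', e1, e3, e2, ?_⟩
    rw [mul_comm (Vt f τ (Function.update s j (s j * p)) E').ncard,
      mul_comm (Vt f τ s E).ncard]
    exact e4
  · exact step1 hV hK hNG hτ hτ' hsq hodd hcp hcp' hE h0 hS

theorem ext_data (hV : Pool.Agent.Y667.QK.St_VN) (hK : Pool.Agent.Y667.QK.St_KILL)
    (hNG : Pool.Agent.Y667.QK.St_NG) {f τ τ' T : ℕ} (hτ : AdT τ) (hτ' : AdT τ')
    (hT : τ ∣ T) (hT' : τ' ∣ T) (hT0 : T ≠ 0)
    {c : ℝ} (hc : 0 < c) (hc1 : c ≤ 1) (Y : ℕ → ℕ)
    (hY2 : ∀ i, 2 ≤ Y i) (hYT : ∀ i, T ≤ Y i) (hY : ∀ i j, i < j → Y i ^ 2 ≤ Y j) :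
    ∀ (r : ℕ) (s : Fin 3 → ℕ) (E : Finset ℕ), Squarefree (∏ j, s j) → Odd (∏ j, s j) →
      Nat.Coprime T (∏ j, s j) →
      E ⊆ (∏ j, s j).primeFactors → (Vt f τ s E).ncard * (Vt f τ' s E).ncard ≤ 2 ^ r →
      (∀ i < r, ∀ p ∈ II Y i, ¬ p ∣ ∏ j, s j) →
      SymH c Y r (Vt f τ s E) → SymH c Y r (Vt f τ' s E) →
      ∃ Ω : Finset ((Fin 3 → ℕ) × Finset ℕ), (∀ t ∈ Ω, ExtP3 f τ τ' Y r s E t) ∧
        (c / 2) ^ r * mu s ≤ ∑ t ∈ Ω, mu t.1 := by
  classical
  have hc2 : 0 < c / 2 := by linarith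
  have hc3 : c / 2 ≤ 1 := by linarith
  intro r
  induction r with
  | zero =>
    intro s E hsq hodd hcp hE hn _ _ _
    obtain ⟨hf0, -⟩ := hV f τ s E hτ hsq hodd (hcp.coprime_dvd_left hT)
    obtain ⟨hf17, -⟩ := hV f τ' s E hτ' hsq hodd (hcp.coprime_dvd_left hT')
    have p0 : 0 < (Vt f τ s E).ncard := (Set.ncard_pos hf0).2 ⟨_, one_mem_Vt f τ s E⟩
    have p17 : 0 < (Vt f τ' s E).ncard := (Set.ncard_pos hf17).2 ⟨_, one_mem_Vt f τ' s E⟩
    rw [pow_zero] at hn
    have n0 : (Vt f τ s E).ncard ≤ 1 := le_trans (Nat.le_mul_of_pos_right _ p17) hn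
    have n17 : (Vt f τ' s E).ncard ≤ 1 := le_trans (Nat.le_mul_of_pos_left _ p0) hn
    refine ⟨{(s, E)}, ?_, ?_⟩
    · intro t ht
      rw [mem_singleton] at ht
      subst ht
      exact ⟨⟨single_of_ncard hf0 (one_mem_Vt f τ s E) n0,
        single_of_ncard hf17 (one_mem_Vt f τ' s E) n17⟩, hsq, hodd, hE, fun _ => dvd_rfl,
        fun p hp => Or.inl (Nat.dvd_of_mem_primeFactors hp), Finset.inter_eq_left.2 hE, by simp⟩
    · simp
  | succ r ih =>
    intro s E hsq hodd hcp hE hn hI hS hS17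
    by_cases hV' : Vt f τ s E = {(1, 1)} ∧ Vt f τ' s E = {(1, 1)}
    · refine ⟨{(s, E)}, ?_, ?_⟩
      · intro t ht
        rw [mem_singleton] at ht
        subst ht
        refine ⟨hV', hsq, hodd, hE, fun _ => dvd_rfl,
          fun p hp => Or.inl (Nat.dvd_of_mem_primeFactors hp), Finset.inter_eq_left.2 hE, ?_⟩
        refine Nat.le_mul_of_pos_right _ (Finset.prod_pos fun i _ => ?_)
        have := hY2 i
        positivity
      · rw [sum_singleton]
        have := mu_nonneg s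
        have h2 : (c / 2) ^ (r + 1) ≤ 1 := pow_le_one₀ hc2.le hc3
        nlinarith
    · -- a class to kill
      obtain ⟨j, D, hsum, hstep⟩ := step hV hK hNG hτ hτ' hsq hodd (hcp.coprime_dvd_left hT)
        (hcp.coprime_dvd_left hT') hE hV' hS hS17
      set P := (Ioc (Y r) (Y r ^ 2)).filter (fun p : ℕ => p.Prime ∧ jacobiSym D p = -1) with hP
      have hs0 : ∏ j, s j ≠ 0 := hsq.ne_zero
      have hPp : ∀ p ∈ P, p.Prime ∧ p ≠ 2 ∧ (¬ p ∣ ∏ j, s j) ∧ p ∈ II Y r ∧ p ≤ Y r ^ 2 ∧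
          jacobiSym D p = -1 ∧ ¬ p ∣ T := by
        intro p hp
        rw [hP, mem_filter, mem_Ioc] at hp
        have hpI : p ∈ II Y r := by
          unfold II
          rw [mem_filter, mem_Ioc]
          exact ⟨hp.1, hp.2.1⟩
        have h2 := hY2 r
        have h3 := hYT r
        refine ⟨hp.2.1, by omega, hI r (Nat.lt_succ_self r) p hpI, hpI, hp.1.2, hp.2.2, ?_⟩
        intro h4
        have := Nat.le_of_dvd (Nat.pos_of_ne_zero hT0) h4
        omega
      have hch : ∀ p ∈ P, ∃ E' : Finset ℕ, (E' = E ∨ E' = insert p E) ∧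
          Vt f τ (Function.update s j (s j * p)) E' ⊆ Vt f τ s E ∧
          Vt f τ' (Function.update s j (s j * p)) E' ⊆ Vt f τ' s E ∧
          2 * ((Vt f τ (Function.update s j (s j * p)) E').ncard *
            (Vt f τ' (Function.update s j (s j * p)) E').ncard) ≤
            (Vt f τ s E).ncard * (Vt f τ' s E).ncard := by
        intro p hp
        obtain ⟨hpp, hp2, hps, hpI, hple, hjac, hpT⟩ := hPp p hp
        exact hstep p hpp hp2 (fun h => hpT (h.trans hT)) (fun h => hpT (h.trans hT')) hps hjac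
      choose! EE hEE0 hEEa hEEb hEEc using hch
      have hEE1 : ∀ p ∈ P, EE p ∩ (∏ j, s j).primeFactors = E := by
        intro p hp
        have hpn : p ∉ (∏ j, s j).primeFactors :=
          fun h => (hPp p hp).2.2.1 (Nat.dvd_of_mem_primeFactors h)
        rcases hEE0 p hp with h | h
        · rw [h]
          exact Finset.inter_eq_left.2 hE
        · rw [h, Finset.insert_inter_of_notMem hpn]
          exact Finset.inter_eq_left.2 hE
      have hOm : ∀ p ∈ P, ∃ Ω : Finset ((Fin 3 → ℕ) × Finset ℕ),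
          (∀ t ∈ Ω, ExtP3 f τ τ' Y r (Function.update s j (s j * p)) (EE p) t) ∧
          (c / 2) ^ r * mu (Function.update s j (s j * p)) ≤ ∑ t ∈ Ω, mu t.1 := by
        intro p hp
        obtain ⟨hpp, hp2, hps, hpI, hple, hjac, hpT⟩ := hPp p hp
        have hpr := prod_upd s j p
        apply ih
        · rw [hpr]
          exact (Nat.squarefree_mul ((Nat.coprime_comm.1 ((Nat.Prime.coprime_iff_not_dvd hpp).2 hps)))).2
            ⟨hsq, hpp.prime.squarefree⟩
        · rw [hpr]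
          exact hodd.mul (hpp.odd_of_ne_two hp2)
        · rw [hpr]
          exact Nat.Coprime.mul_right hcp
            (Nat.coprime_comm.1 ((Nat.Prime.coprime_iff_not_dvd hpp).2 hpT))
        · rw [hpr, pf_mul hs0 hpp]
          rcases hEE0 p hp with h | h
          · rw [h]
            exact hE.trans (Finset.subset_insert _ _)
          · rw [h]
            exact Finset.insert_subset_insert _ hE
        · have h1 := (hEEc p hp).trans hn
          rw [pow_succ] at h1
          omega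
        · intro i hi q hq
          rw [hpr]
          intro hdvd
          have hqp : q.Prime := by
            unfold II at hq
            exact (mem_filter.1 hq).2
          rcases (hqp.dvd_mul).1 hdvd with h | h
          · exact hI i (Nat.lt_succ_of_lt hi) q hq h
          · have : q = p := (Nat.prime_dvd_prime_iff_eq hqp hpp).1 h
            subst this
            exact II_disj hY hi hq hpI
        · exact hS.mono (Nat.le_succ r) (hEEa p hp)
        · exact hS17.mono (Nat.le_succ r) (hEEb p hp)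
      choose! Om hOm1 hOm2 using hOm
      refine ⟨P.biUnion Om, ?_, ?_⟩
      · intro t ht
        rw [mem_biUnion] at ht
        obtain ⟨p, hp, ht⟩ := ht
        obtain ⟨hpp, hp2, hps, hpI, hple, hjac, hpT⟩ := hPp p hp
        obtain ⟨h1, h2, h3, h4, h5, h6, h7, h8⟩ := hOm1 p hp t ht
        have hpr := prod_upd s j p
        rw [hpr] at h6 h7 h8
        refine ⟨h1, h2, h3, h4, ?_, ?_, ?_, ?_⟩
        · intro i
          refine dvd_trans ?_ (h5 i)
          by_cases hij : i = j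
          · subst hij
            simp
          · rw [Function.update_of_ne hij]
        · intro q hq
          have hqp := (Nat.mem_primeFactors.1 hq).1
          rcases h6 q hq with h | ⟨i, hi, h⟩
          · rcases (hqp.dvd_mul).1 h with h | h
            · exact Or.inl h
            · have : q = p := (Nat.prime_dvd_prime_iff_eq hqp hpp).1 h
              subst this
              exact Or.inr ⟨r, Nat.lt_succ_self r, hpI⟩
          · exact Or.inr ⟨i, Nat.lt_succ_of_lt hi, h⟩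
        · have h9 : (∏ j, s j).primeFactors ⊆ ((∏ j, s j) * p).primeFactors := by
            rw [pf_mul hs0 hpp]
            exact Finset.subset_insert _ _
          calc t.2 ∩ (∏ j, s j).primeFactors
              = t.2 ∩ (((∏ j, s j) * p).primeFactors ∩ (∏ j, s j).primeFactors) := by
                rw [Finset.inter_eq_right.2 h9]
            _ = (t.2 ∩ ((∏ j, s j) * p).primeFactors) ∩ (∏ j, s j).primeFactors := by
                rw [Finset.inter_assoc]
            _ = EE p ∩ (∏ j, s j).primeFactors := by rw [h7]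
            _ = E := hEE1 p hp
        · refine h8.trans ?_
          rw [Finset.prod_range_succ, mul_assoc]
          refine Nat.mul_le_mul_left _ ?_
          rw [mul_comm]
          exact Nat.mul_le_mul_left _ hple
      · rw [Finset.sum_biUnion]
        · calc (c / 2) ^ (r + 1) * mu s ≤ (c / 2) ^ r * mu s * ((∑ p ∈ P, (1 : ℝ) / p) / 2) := by
                rw [pow_succ]
                have h1 : 0 ≤ (c / 2) ^ r * mu s :=
                  mul_nonneg (pow_nonneg hc2.le _) (mu_nonneg s)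
                calc (c / 2) ^ r * (c / 2) * mu s = (c / 2) ^ r * mu s * (c / 2) := by ring
                  _ ≤ _ := mul_le_mul_of_nonneg_left (by linarith) h1
            _ = ∑ p ∈ P, (c / 2) ^ r * mu (Function.update s j (s j * p)) := by
                rw [Finset.sum_div, Finset.mul_sum]
                refine Finset.sum_congr rfl fun p hp => ?_
                rw [mu_upd hs0 j (hPp p hp).1 (hPp p hp).2.2.1]
                have : (p : ℝ) ≠ 0 := by exact_mod_cast (hPp p hp).1.ne_zero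
                field_simp
            _ ≤ _ := by
                refine Finset.sum_le_sum fun p hp => ?_
                exact hOm2 p hp
        · rintro p hp q hq hne
          rw [Function.onFun, Finset.disjoint_left]
          intro t ht1 ht2
          replace hp : p ∈ P := Finset.mem_coe.1 hp
          replace hq : q ∈ P := Finset.mem_coe.1 hq
          obtain ⟨hpp, hp2, hps, hpI, hple, hjac, hpT⟩ := hPp p hp
          obtain ⟨hqp, hq2, hqs, hqI, hqle, hqjac, hqT⟩ := hPp q hq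
          obtain ⟨h1, h2, h3, h4, h5, h6, h7, h8⟩ := hOm1 p hp t ht1
          obtain ⟨g1, g2, g3, g4, g5, g6, g7, g8⟩ := hOm1 q hq t ht2
          rw [prod_upd] at h6
          have ht0 : ∏ j, t.1 j ≠ 0 := h2.ne_zero
          have hqd : q ∣ ∏ j, t.1 j := by
            refine dvd_trans ?_ (Finset.prod_dvd_prod_of_dvd _ _ fun i _ => g5 i)
            rw [prod_upd]
            exact Dvd.intro_left _ rfl
          apply hne
          rcases h6 q (Nat.mem_primeFactors.2 ⟨hqp, hqd, ht0⟩) with h | ⟨i, hi, h⟩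
          · rcases (hqp.dvd_mul).1 h with h | h
            · exact (hqs h).elim
            · exact ((Nat.prime_dvd_prime_iff_eq hqp hpp).1 h).symm
          · exact (II_disj hY hi h hqI).elim

end Pool.Agent.Y202.QK
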