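import Pool.Agent.Y202.QK.Base

/-!
# Project QK, part GD: gluing the extensions
-/

set_option autoImplicit false

namespace Pool.Agent.Y202.QK

open Finset Pool.Agent.W262.RK Pool.Agent.W307.RT Pool.Agent.W307.RS Pool.Agent.W307.SE
  Pool.Agent.W307.FK Pool.Agent.Y667.RP Pool.Agent.Y667.RZ Pool.Agent.Y678.RP
  Pool.Agent.Y202.RZ Pool.Agent.Y667.QK

/-- the base datum is determined by the extension -/
theorem ext_base3 {f τ τ' : ℕ} {Y : ℕ → ℕ} {r y : ℕ} (hyY : ∀ i, y ≤ Y i) {s : Fin 3 → ℕ}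
    {E : Finset ℕ}
    {t : (Fin 3 → ℕ) × Finset ℕ} (hsq : Squarefree (∏ j, s j))
    (hsy : ∀ p : ℕ, p.Prime → p ∣ ∏ j, s j → p ≤ y) (ht : ExtP3 f τ τ' Y r s E t) (j : Fin 3) :
    s j = ∏ p ∈ (t.1 j).primeFactors.filter (fun p => p ≤ y), p := by
  obtain ⟨-, h2, -, -, h5, h6, -, -⟩ := ht
  have hsj : Squarefree (s j) := hsq.squarefree_of_dvd (Finset.dvd_prod_of_mem s (mem_univ j))
  rw [← Nat.prod_primeFactors_of_squarefree hsj]
  refine Finset.prod_congr ?_ fun _ _ => rfl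
  have ht0 : ∏ j, t.1 j ≠ 0 := h2.ne_zero
  have htj : ∀ j, t.1 j ≠ 0 := fun j => (Finset.prod_ne_zero_iff.1 ht0) j (mem_univ j)
  ext p
  rw [mem_filter, Nat.mem_primeFactors, Nat.mem_primeFactors]
  constructor
  · rintro ⟨hp, hpd, -⟩
    exact ⟨⟨hp, hpd.trans (h5 j), htj j⟩,
      hsy p hp (hpd.trans (Finset.dvd_prod_of_mem s (mem_univ j)))⟩
  · rintro ⟨⟨hp, hpd, -⟩, hpy⟩
    refine ⟨hp, ?_, hsj.ne_zero⟩
    have hpt : p ∣ ∏ j, t.1 j := hpd.trans (Finset.dvd_prod_of_mem t.1 (mem_univ j))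
    have hps : p ∣ ∏ j, s j := by
      rcases h6 p (Nat.mem_primeFactors.2 ⟨hp, hpt, ht0⟩) with h | ⟨i, hi, h⟩
      · exact h
      · exfalso
        unfold II at h
        rw [mem_filter, mem_Ioc] at h
        have := hyY i
        omega
    rw [hp.prime.dvd_finsetProd_iff] at hps
    obtain ⟨k, -, hk⟩ := hps
    by_cases hkj : k = j
    · subst hkj
      exact hk
    · exfalso
      have hk' := hk.trans (h5 k)
      have h7 : t.1 k * t.1 j ∣ ∏ j, t.1 j := by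
        have : t.1 k * t.1 j = ∏ i ∈ ({k, j} : Finset (Fin 3)), t.1 i := by
          rw [Finset.prod_pair hkj]
        rw [this]
        exact Finset.prod_dvd_prod_of_subset _ _ _ (Finset.subset_univ _)
      have h8 := (Nat.squarefree_mul_iff.1 (h2.squarefree_of_dvd h7)).1
      exact hp.one_lt.ne' (Nat.dvd_one.1 (h8 ▸ Nat.dvd_gcd hk' hpd))

open Classical in
theorem glue (hV : Pool.Agent.Y667.QK.St_VN) (hK : Pool.Agent.Y667.QK.St_KILL)
    (hNG : Pool.Agent.Y667.QK.St_NG) {c B : ℝ} (hc : 0 < c) (hc1 : c ≤ 1) {R u : ℕ}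
    {Y : ℕ → ℕ} {z y f D τ τ' : ℕ} (hz : 2 ≤ z) (hf : f.Prime) (hfz : f ≤ z)
    (hAd : AdT (f * D)) (hT : τ ∣ f * D) (hT' : τ' ∣ f * D)
    (hzy : z ≤ y) (hyT : f * D ≤ y) (hyY : ∀ i, y ≤ Y i)
    (hY : ∀ i j, i < j → Y i ^ 2 ≤ Y j)
    (h4 : ∀ s : Fin 3 → ℕ, (∀ j, (s j : ℝ) ≤ (y : ℝ) ^ (u : ℝ)) → ∀ i,
      ((f * D) * ∏ j, s j) ^ 4 ≤ Y i)
    (hB : ∀ s : Fin 3 → ℕ, (∀ j, (s j : ℝ) ≤ (y : ℝ) ^ (u : ℝ)) →
      (((∏ j, s j) * ∏ i ∈ range (2 * R), Y i ^ 2 : ℕ) : ℝ) ≤ B) :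
    (c / 2) ^ (2 * R) *
      ∑ s ∈ (Tup (Fin 3) z y).filter (fun s => Nat.Coprime D (∏ j, s j)), mu s *
      (((∏ j, s j).primeFactors.powerset.filter
        (fun E => GB3 c R u Y y f τ τ' (f * D) s E)).card : ℝ) ≤
    ∑ s ∈ (Trip z B).filter (fun s => Nat.Coprime D (∏ j, s j)), mu s *
      (((∏ j, s j).primeFactors.powerset.filter
        (fun E => Vt f τ s E = {(1, 1)} ∧ Vt f τ' s E = {(1, 1)})).card : ℝ) := by
  set G : Finset ((_ : Fin 3 → ℕ) × Finset ℕ) :=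
    ((Tup (Fin 3) z y).filter (fun s => Nat.Coprime D (∏ j, s j))).sigma
    (fun s => (∏ j, s j).primeFactors.powerset.filter
      (fun E => GB3 c R u Y y f τ τ' (f * D) s E)) with hG
  have hT0 : f * D ≠ 0 := hAd.sqf.ne_zero
  have hD0 : D ≠ 0 := by
    rintro rfl
    exact hT0 (by simp)
  have hodd : ∀ s ∈ Tup (Fin 3) z y, Odd (∏ j, s j) := by
    intro s hs
    rw [mem_Tup] at hs
    rw [← Nat.not_even_iff_odd, even_iff_two_dvd]
    intro h2
    have := (hs.2 2 Nat.prime_two h2).1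
    omega
  have hGm : ∀ x ∈ G, x.1 ∈ Tup (Fin 3) z y ∧ Nat.Coprime D (∏ j, x.1 j) ∧
      x.2 ⊆ (∏ j, x.1 j).primeFactors ∧ GB3 c R u Y y f τ τ' (f * D) x.1 x.2 := by
    intro x hx
    rw [hG, Finset.mem_sigma, mem_filter, mem_filter, mem_powerset] at hx
    exact ⟨hx.1.1, hx.1.2, hx.2.1, hx.2.2⟩
  have hcp : ∀ s ∈ Tup (Fin 3) z y, Nat.Coprime D (∏ j, s j) →
      Nat.Coprime (f * D) (∏ j, s j) := by
    intro s hs hs2
    refine Nat.Coprime.mul_left ((Nat.Prime.coprime_iff_not_dvd hf).2 fun h => ?_) hs2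
    have := ((mem_Tup.1 hs).2 f hf h).1
    omega
  have hOm : ∀ x ∈ G, ∃ Ω : Finset ((Fin 3 → ℕ) × Finset ℕ),
      (∀ t ∈ Ω, ExtP3 f τ τ' Y (2 * R) x.1 x.2 t) ∧
      (c / 2) ^ (2 * R) * mu x.1 ≤ ∑ t ∈ Ω, mu t.1 := by
    intro x hx
    obtain ⟨h1, h1', h2, h3, h5, h6⟩ := hGm x hx
    have h7 := mem_Tup.1 h1
    refine ext_data hV hK hNG (adT_of_dvd hAd hT) (adT_of_dvd hAd hT') hT hT' hT0 hc hc1 Y
      (fun i => (hz.trans hzy).trans (hyY i)) (fun i => hyT.trans (hyY i)) hY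
      (2 * R) x.1 x.2 h7.1 (hodd _ h1) (hcp _ h1 h1') h2 ?_ ?_
      (sym_hyp3 hAd hT h7.1 (hodd _ h1) (hcp _ h1 h1') (fun i _ => h4 _ h5 i) h6)
      (sym_hyp3 hAd hT' h7.1 (hodd _ h1) (hcp _ h1 h1') (fun i _ => h4 _ h5 i) h6)
    · calc (Vt f τ x.1 x.2).ncard * (Vt f τ' x.1 x.2).ncard ≤ 2 ^ R * 2 ^ R :=
            Nat.mul_le_mul h3.1 h3.2
        _ = 2 ^ (2 * R) := by rw [← pow_add, two_mul]
    · intro i _ p hp hpd
      unfold II at hp
      rw [mem_filter, mem_Ioc] at hp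
      have h8 := (h7.2 p hp.2 hpd).2
      have h9 := hyY i
      omega
  choose! Om hOm1 hOm2 using hOm
  set U := G.biUnion Om with hU
  have hsumU : (c / 2) ^ (2 * R) *
      ∑ s ∈ (Tup (Fin 3) z y).filter (fun s => Nat.Coprime D (∏ j, s j)), mu s *
      (((∏ j, s j).primeFactors.powerset.filter
        (fun E => GB3 c R u Y y f τ τ' (f * D) s E)).card : ℝ) ≤
      ∑ t ∈ U, mu t.1 := by
    rw [hU, Finset.sum_biUnion]
    · calc _ = ∑ x ∈ G, (c / 2) ^ (2 * R) * mu x.1 := by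
            rw [hG, Finset.sum_sigma, Finset.mul_sum]
            refine Finset.sum_congr rfl fun s _ => ?_
            dsimp only
            rw [Finset.sum_const, nsmul_eq_mul]
            ring
        _ ≤ _ := Finset.sum_le_sum fun x hx => hOm2 x hx
    · rintro ⟨s, E⟩ hx ⟨s', E'⟩ hx' hne
      rw [Function.onFun, Finset.disjoint_left]
      intro t ht ht'
      apply hne
      have e1 := hOm1 _ hx t ht
      have e2 := hOm1 _ hx' t ht'
      obtain ⟨g1, -, -⟩ := hGm _ hx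
      obtain ⟨g2, -, -⟩ := hGm _ hx'
      have g3 := mem_Tup.1 g1
      have g4 := mem_Tup.1 g2
      dsimp only at e1 e2 g3 g4
      have hss : s = s' := by
        funext j
        rw [ext_base3 hyY g3.1 (fun p hp hpd => (g3.2 p hp hpd).2) e1 j,
          ext_base3 hyY g4.1 (fun p hp hpd => (g4.2 p hp hpd).2) e2 j]
      subst hss
      have hEE : E = E' := by
        rw [← e1.2.2.2.2.2.2.1, ← e2.2.2.2.2.2.2.1]
      rw [hEE]
  refine hsumU.trans ?_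
  have hUm : ∀ t ∈ U, t.1 ∈ (Trip z B).filter (fun s => Nat.Coprime D (∏ j, s j)) ∧
      t.2 ⊆ (∏ j, t.1 j).primeFactors ∧
      (Vt f τ t.1 t.2 = {(1, 1)} ∧ Vt f τ' t.1 t.2 = {(1, 1)}) := by
    intro t ht
    rw [hU, mem_biUnion] at ht
    obtain ⟨x, hx, ht⟩ := ht
    obtain ⟨g1, g1', g2, g3⟩ := hGm x hx
    obtain ⟨e1, e2, e3, e4, e5, e6, e7, e8⟩ := hOm1 x hx t ht
    have g4 := mem_Tup.1 g1
    have hle : ((∏ j, t.1 j : ℕ) : ℝ) ≤ B :=
      le_trans (by exact_mod_cast e8) (hB x.1 g3.2.1)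
    have hpos : 0 < ∏ j, t.1 j := Nat.pos_of_ne_zero e2.ne_zero
    refine ⟨?_, e4, e1⟩
    rw [mem_filter]
    constructor
    · unfold Trip
      rw [mem_filter, mem_Tup]
      refine ⟨⟨e2, fun p hp hpd => ⟨?_, ?_⟩⟩, fun j => ?_⟩
      · rcases e6 p (Nat.mem_primeFactors.2 ⟨hp, hpd, e2.ne_zero⟩) with h | ⟨i, hi, h⟩
        · exact (g4.2 p hp h).1
        · unfold II at h
          rw [mem_filter, mem_Ioc] at h
          have := hyY i
          omega
      · refine Nat.le_floor (le_trans ?_ hle)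
        exact_mod_cast Nat.le_of_dvd hpos hpd
      · refine le_trans ?_ hle
        exact_mod_cast Nat.le_of_dvd hpos (Finset.dvd_prod_of_mem t.1 (mem_univ j))
    · by_contra hcon
      obtain ⟨q, hq, hqD, hqs⟩ := Nat.Prime.not_coprime_iff_dvd.1 hcon
      rcases e6 q (Nat.mem_primeFactors.2 ⟨hq, hqs, e2.ne_zero⟩) with h | ⟨i, hi, h⟩
      · exact Nat.Prime.not_coprime_iff_dvd.2 ⟨q, hq, hqD, h⟩ g1'
      · unfold II at h
        rw [mem_filter, mem_Ioc] at h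
        have h1 := hyY i
        have h2 : q ≤ f * D := Nat.le_of_dvd (Nat.pos_of_ne_zero hT0) (hqD.mul_left f)
        omega
  rw [← Finset.sum_fiberwise_of_maps_to (g := fun t : (Fin 3 → ℕ) × Finset ℕ => t.1)
    (fun t ht => (hUm t ht).1)]
  refine Finset.sum_le_sum fun s hs => ?_
  calc ∑ t ∈ U.filter (fun t => t.1 = s), mu t.1
      = ∑ t ∈ U.filter (fun t => t.1 = s), mu s := by
        refine Finset.sum_congr rfl fun t ht => ?_
        rw [(mem_filter.1 ht).2]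
    _ = mu s * ((U.filter (fun t => t.1 = s)).card : ℝ) := by
        rw [Finset.sum_const, nsmul_eq_mul, mul_comm]
    _ ≤ _ := by
        refine mul_le_mul_of_nonneg_left ?_ (mu_nonneg s)
        refine Nat.cast_le.2 (Finset.card_le_card_of_injOn (fun t => t.2) ?_ ?_)
        · intro t ht
          have ht' := mem_filter.1 (Finset.mem_coe.1 ht)
          obtain ⟨h1, h2, h3⟩ := hUm t ht'.1
          rw [ht'.2] at h2 h3
          exact Finset.mem_coe.2 (mem_filter.2 ⟨mem_powerset.2 h2, h3⟩)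
        · intro t ht t' ht' h
          have g1 := (mem_filter.1 (Finset.mem_coe.1 ht)).2
          have g2 := (mem_filter.1 (Finset.mem_coe.1 ht')).2
          exact Prod.ext (g1.trans g2.symm) h

end Pool.Agent.Y202.QK
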